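import Mathlib
import Pool.Agent.L0h53.PQ.Struct

/-!
# Linear forms in `p`-adic logarithms: half of the structural rank, uniformly and quantitatively

Let `M(X) = M₀ + X_1 M_1 + ... + X_n M_n`, where the `M_i` are `d × l` matrices of integers. The
structural rank of `M(X)` is its rank over the field of rational functions. The `p`-adic Schanuel
conjecture for logarithms says that the rank of `M(λ)` is the structural rank if `λ_1, ..., λ_n` are
`p`-adic logarithms of algebraic numbers which are linearly independent over `ℚ`; for `d = l = 2` this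
contains the `p`-adic strong four exponentials conjecture over `ℚ`. By the theorem of Waldschmidt and
Roy the rank of `M(λ)` is at least half of the structural rank.

We prove a version of this theorem for rational numbers which is quantitative and uniform in the
logarithms and in the prime number `p`. A rational number has height at most `H` if its numerator and
its denominator are at most `H` in absolute value. `log_p` is the Iwasawa logarithm. Let the
structural rank be at least `s`, and let `2 r < s`.

(1) Let `M₀ = 0` and `κ > s / (s - 2 r)`. There is `C > 0`, depending on `M`, `s`, `r`, `κ` only, such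
that for every prime `p`, every real `H ≥ 3` and all nonzero rational numbers `z_1, ..., z_n` of
height at most `H` whose `p`-adic logarithms `λ_i` are linearly independent over `ℚ`, the matrix
`M(λ)` has a minor of order `r + 1` with absolute value larger than `exp (- C (p ^ 4 log H) ^ κ)`.

(2) The same is true for all `M₀` if `κ > 2 s / (s - 2 r)`.

Method: an auxiliary polynomial is constructed with the box principle modulo a power of `p`, and a
zero estimate gives an obstruction subgroup; it gives a block of zeros of `M(X)`, which is too large.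
-/

set_option autoImplicit false

open MvPolynomial

namespace Pool.Agent.Results.MP_dd0d16_nt.HalfTheStructuralRank

/-- `L` is the Iwasawa `p`-adic logarithm on the algebraic closure of `ℚ_p`. -/
def IsIwasawaLog (p : ℕ) [Fact p.Prime] (L : PadicAlgCl p → PadicAlgCl p) : Prop :=
  (∀ x y : PadicAlgCl p, x ≠ 0 → y ≠ 0 → L (x * y) = L x + L y) ∧
  L ((p : ℕ) : PadicAlgCl p) = 0 ∧
  ∀ z : PadicAlgCl p, ‖z‖ < 1 →
    HasSum (fun n : ℕ => (-1 : PadicAlgCl p) ^ n * z ^ (n + 1) / ((n : PadicAlgCl p) + 1))
      (L (1 + z))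

/-- The rational number `x` has height at most `H`: numerator and denominator (in lowest terms) have
absolute value at most `H`. -/
def HeightLe (H : ℝ) (x : ℚ) : Prop := |(x.num : ℝ)| ≤ H ∧ (x.den : ℝ) ≤ H

/-- The numbers `L (z i)` are linearly independent over `ℚ`. -/
def Independent {p : ℕ} [Fact p.Prime] (L : PadicAlgCl p → PadicAlgCl p) {n : ℕ}
    (z : Fin n → ℚ) : Prop :=
  ∀ t : Fin n → ℤ, ∑ i, (t i : PadicAlgCl p) * L ((z i : ℚ) : PadicAlgCl p) = 0 → t = 0

/-- the matrix `M₀ + X_1 M_1 + ... + X_n M_n` of affine linear forms -/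
noncomputable def form {n d l : ℕ} (M₀ : Matrix (Fin d) (Fin l) ℤ)
    (M : Fin n → Matrix (Fin d) (Fin l) ℤ) : Matrix (Fin d) (Fin l) (MvPolynomial (Fin n) ℤ) :=
  Matrix.of fun j q => C (M₀ j q) + ∑ i, C (M i j q) * X i

/-- The structural rank of `M₀ + X_1 M_1 + ... + X_n M_n` is at least `s`: some minor of size `s` is
not the zero polynomial. -/
def StructuralRankGE {n d l : ℕ} (s : ℕ) (M₀ : Matrix (Fin d) (Fin l) ℤ)
    (M : Fin n → Matrix (Fin d) (Fin l) ℤ) : Prop :=
  ∃ (f : Fin s → Fin d) (g : Fin s → Fin l), ((form M₀ M).submatrix f g).det ≠ 0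

/-- the matrix `M(λ) = M₀ + λ_1 M_1 + ... + λ_n M_n` with `λ_i = L (z i)` -/
noncomputable def value {p : ℕ} [Fact p.Prime] (L : PadicAlgCl p → PadicAlgCl p) {n d l : ℕ}
    (M₀ : Matrix (Fin d) (Fin l) ℤ) (M : Fin n → Matrix (Fin d) (Fin l) ℤ) (z : Fin n → ℚ) :
    Matrix (Fin d) (Fin l) (PadicAlgCl p) :=
  Matrix.of fun j q => (M₀ j q : PadicAlgCl p) +
    ∑ i, (M i j q : PadicAlgCl p) * L ((z i : ℚ) : PadicAlgCl p)

/-- Uniformly in `p` and in the numbers `z_i` of height at most `H` with independent logarithms, the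
matrix `M(λ)` has a minor of order `r + 1` with absolute value larger than
`exp (- C (p ^ 4 log H) ^ κ)`. -/
def LargeMinor {n d l : ℕ} (M₀ : Matrix (Fin d) (Fin l) ℤ) (M : Fin n → Matrix (Fin d) (Fin l) ℤ)
    (r : ℕ) (κ : ℝ) : Prop :=
  ∃ C : ℝ, 0 < C ∧ ∀ (p : ℕ) [Fact p.Prime] (L : PadicAlgCl p → PadicAlgCl p), IsIwasawaLog p L →
    ∀ H : ℝ, 3 ≤ H → ∀ z : Fin n → ℚ, (∀ i, z i ≠ 0 ∧ HeightLe H (z i)) → Independent L z →
    ∃ (e : Fin (r + 1) → Fin d) (f : Fin (r + 1) → Fin l),
      Real.exp (-(C * ((p : ℝ) ^ 4 * Real.log H) ^ κ)) <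
        ‖((value L M₀ M z).submatrix e f).det‖

theorem log_abs {p : ℕ} [Fact p.Prime] {L : PadicAlgCl p → PadicAlgCl p}
    (hL : Pool.Agent.W245.PB.IsIwasawaLog p L) {z : ℚ} (hz : z ≠ 0) :
    L ((|z| : ℚ) : PadicAlgCl p) = L ((z : ℚ) : PadicAlgCl p) := by
  rcases abs_choice z with h | h
  · rw [h]
  · rw [h]
    push_cast
    have hz' : ((z : ℚ) : PadicAlgCl p) ≠ 0 := by exact_mod_cast hz
    have h1 := hL.pow (neg_ne_zero.mpr hz') 2
    have h2 := hL.pow hz' 2
    rw [neg_sq, h2] at h1
    exact (mul_left_cancel₀ (by norm_num) h1).symm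

/-- **Main result.** -/
theorem result (n d l r s : ℕ) (h : 2 * r < s) (M₀ : Matrix (Fin d) (Fin l) ℤ)
    (M : Fin n → Matrix (Fin d) (Fin l) ℤ) (hs : StructuralRankGE s M₀ M) :
    (M₀ = 0 → ∀ κ : ℝ, (s : ℝ) / (s - 2 * r) < κ → LargeMinor M₀ M r κ) ∧
    ∀ κ : ℝ, (2 * s : ℝ) / (s - 2 * r) < κ → LargeMinor M₀ M r κ := by
  obtain ⟨f, g, hfg⟩ := hs
  have habs : ∀ {H : ℝ} {x : ℚ}, HeightLe H x → Pool.Agent.L0h53.NP.HtLe H |x| := by
    intro H x hx
    rcases abs_choice x with h | h
    · rw [h]; exact hx
    · rw [h]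
      refine ⟨?_, ?_⟩
      · rw [Rat.neg_num]
        push_cast
        rw [abs_neg]
        exact hx.1
      · rw [Rat.neg_den]
        exact hx.2
  constructor
  · intro h0 κ hκ
    subst h0
    obtain ⟨C, hC, hmain⟩ := Pool.Agent.L0h53.PQ.half_pure_p n s r h
      (fun i j p => M i (f j) (g p)) (by
        convert hfg using 2
        ext1 j p
        simp [form]) κ hκ
    refine ⟨C, hC, fun p hp L hL H hH z hz hind => ?_⟩
    have hL' : Pool.Agent.W245.PB.IsIwasawaLog p L := ⟨hL.1, hL.2.1, hL.2.2⟩
    by_contra hcon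
    push Not at hcon
    obtain ⟨t, ht, hrel⟩ := hmain p L hL' H hH (fun i => |z i|) (fun i => abs_pos.mpr (hz i).1)
      (fun i => habs (hz i).2) (fun e e' => by
        refine le_trans (le_of_eq ?_) (hcon (fun i => f (e i)) (fun i => g (e' i)))
        congr 2
        ext j q
        simp only [Matrix.submatrix_apply, Matrix.of_apply, value, Matrix.zero_apply,
          Int.cast_zero, zero_add]
        exact Finset.sum_congr rfl fun i _ => by rw [log_abs hL' (hz i).1])
    refine ht (hind t ?_)
    rw [← hrel]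
    exact Finset.sum_congr rfl fun i _ => by rw [log_abs hL' (hz i).1]
  · intro κ hκ
    obtain ⟨C, hC, hmain⟩ := Pool.Agent.L0h53.PQ.half_strong_p n s r h
      (fun i j p => M i (f j) (g p)) (fun j p => M₀ (f j) (g p)) (by
        convert hfg using 2
        rfl) κ hκ
    refine ⟨C, hC, fun p hp L hL H hH z hz hind => ?_⟩
    have hL' : Pool.Agent.W245.PB.IsIwasawaLog p L := ⟨hL.1, hL.2.1, hL.2.2⟩
    by_contra hcon
    push Not at hcon
    obtain ⟨t, ht, hrel⟩ := hmain p L hL' H hH (fun i => |z i|) (fun i => abs_pos.mpr (hz i).1)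
      (fun i => habs (hz i).2) (fun e e' => by
        refine le_trans (le_of_eq ?_) (hcon (fun i => f (e i)) (fun i => g (e' i)))
        congr 2
        ext j q
        simp only [Matrix.submatrix_apply, Matrix.of_apply, value]
        congr 1
        exact Finset.sum_congr rfl fun i _ => by rw [log_abs hL' (hz i).1])
    refine ht (hind t ?_)
    rw [← hrel]
    exact Finset.sum_congr rfl fun i _ => by rw [log_abs hL' (hz i).1]

end Pool.Agent.Results.MP_dd0d16_nt.HalfTheStructuralRank
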