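import Pool.Agent.L0h53.PQ.Main

/-!
# `p`-adic logarithms of rational numbers: a uniform quantitative rank theorem

Let `d, l, r` be natural numbers with `r (d + l) < d l`. A rational number has height at most `H` if
its numerator and its denominator are at most `H` in absolute value. `log_p` is the Iwasawa logarithm.

(1) Let `κ > d l / (d l - r (d + l))`. There is a constant `C > 0`, depending on `d, l, r, κ` only, such
that for every prime `p`, every real `H ≥ 3` and every `d × l` matrix of nonzero rational numbers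
`z_jq` of height at most `H`: if there are no nonzero integer vectors `t, s` with
`∑ t_j s_q log_p z_jq = 0`, then the matrix `(log_p z_jq)` has a minor of order `r + 1` with absolute
value larger than `exp (- C (p ^ 4 log H) ^ κ)`.

(2) Let `κ > 2 d l / (d l - r (d + l))`. The same is true for the matrix `(β_jq + log_p z_jq)`, where
`β_jq` are rational numbers of height at most `H` with `|β_jq|_p ≤ 1`, if there are no nonzero integer
vectors `t, s` with `∑ t_j s_q log_p z_jq = 0` and `∑ t_j s_q β_jq = 0`.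

For `d = l = 1`, `r = 0` the second part is a measure for the `p`-adic Hermite-Lindemann theorem; for
`d = 2`, `l = 3`, `r = 1` it is a quantitative `p`-adic strong six exponentials theorem over `ℚ`.
All the numbers `z_jq`, `β_jq` and the prime `p` may vary with `H`.

Method: an auxiliary polynomial is constructed with the box principle modulo a power of `p`. A matrix
with small minors of order `r + 1` is close to a product of a `d × r` matrix with natural entries and an
`r × l` matrix with small entries in `ℚ_p`. The values of the derivatives of the auxiliary polynomial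
at the rational points are divisible by a large power of `p` and therefore vanish; a zero estimate of
Philippon type gives an obstruction subgroup of `G_a ^ d × G_m ^ d`.
-/

set_option autoImplicit false

namespace Pool.Agent.Results.MP_dd0d16_nt.LowRankMatrices

/-- `L` is the Iwasawa `p`-adic logarithm on the algebraic closure of `ℚ_p`. -/
def IsIwasawaLog (p : ℕ) [Fact p.Prime] (L : PadicAlgCl p → PadicAlgCl p) : Prop :=
  (∀ x y : PadicAlgCl p, x ≠ 0 → y ≠ 0 → L (x * y) = L x + L y) ∧
  L ((p : ℕ) : PadicAlgCl p) = 0 ∧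
  ∀ z : PadicAlgCl p, ‖z‖ < 1 →
    HasSum (fun n : ℕ => (-1 : PadicAlgCl p) ^ n * z ^ (n + 1) / ((n : PadicAlgCl p) + 1))
      (L (1 + z))

/-- The rational number `x` has height at most `H`: numerator and denominator (in lowest terms) have
absolute value at most `H`. -/
def HeightLe (H : ℝ) (x : ℚ) : Prop := |(x.num : ℝ)| ≤ H ∧ (x.den : ℝ) ≤ H

/-- There are nonzero integer vectors `t`, `s` with `∑ t_j s_q L (z_jq) = 0` and
`∑ t_j s_q β_jq = 0`. -/
def HasRelation {p : ℕ} [Fact p.Prime] (L : PadicAlgCl p → PadicAlgCl p) {d l : ℕ}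
    (β z : Fin d → Fin l → ℚ) : Prop :=
  ∃ (t : Fin d → ℤ) (s : Fin l → ℤ), t ≠ 0 ∧ s ≠ 0 ∧
    ∑ j, ∑ q, (t j : PadicAlgCl p) * (s q : PadicAlgCl p) * L ((z j q : ℚ) : PadicAlgCl p) = 0 ∧
    ∑ j, ∑ q, (t j : ℚ) * (s q : ℚ) * β j q = 0

/-- The matrix with the entries `β j q + L (z j q)`. -/
noncomputable def logMatrix {p : ℕ} [Fact p.Prime] (L : PadicAlgCl p → PadicAlgCl p) {d l : ℕ}
    (β z : Fin d → Fin l → ℚ) : Matrix (Fin d) (Fin l) (PadicAlgCl p) :=
  Matrix.of fun j q => ((β j q : ℚ) : PadicAlgCl p) + L ((z j q : ℚ) : PadicAlgCl p)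

/-- **Main result.** -/
theorem result (d l r : ℕ) (h : r * (d + l) < d * l) :
    (∀ κ : ℝ, (d * l : ℝ) / (d * l - r * (d + l)) < κ → ∃ C : ℝ, 0 < C ∧
      ∀ (p : ℕ) [Fact p.Prime] (L : PadicAlgCl p → PadicAlgCl p), IsIwasawaLog p L →
      ∀ H : ℝ, 3 ≤ H → ∀ z : Fin d → Fin l → ℚ, (∀ j q, z j q ≠ 0 ∧ HeightLe H (z j q)) →
      ¬ HasRelation L (fun _ _ => 0) z →
      ∃ (e : Fin (r + 1) → Fin d) (f : Fin (r + 1) → Fin l),
        Real.exp (-(C * ((p : ℝ) ^ 4 * Real.log H) ^ κ)) <
          ‖((logMatrix L (fun _ _ => 0) z).submatrix e f).det‖) ∧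
    (∀ κ : ℝ, (2 * (d * l) : ℝ) / (d * l - r * (d + l)) < κ → ∃ C : ℝ, 0 < C ∧
      ∀ (p : ℕ) [Fact p.Prime] (L : PadicAlgCl p → PadicAlgCl p), IsIwasawaLog p L →
      ∀ H : ℝ, 3 ≤ H → ∀ β z : Fin d → Fin l → ℚ, (∀ j q, z j q ≠ 0 ∧ HeightLe H (z j q)) →
      (∀ j q, HeightLe H (β j q) ∧ ‖((β j q : ℚ) : ℚ_[p])‖ ≤ 1) →
      ¬ HasRelation L β z →
      ∃ (e : Fin (r + 1) → Fin d) (f : Fin (r + 1) → Fin l),
        Real.exp (-(C * ((p : ℝ) ^ 4 * Real.log H) ^ κ)) <
          ‖((logMatrix L β z).submatrix e f).det‖) := by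
  constructor
  · intro κ hκ
    obtain ⟨C, hC, hmain⟩ := Pool.Agent.L0h53.PQ.pure_p d l r h κ hκ
    refine ⟨C, hC, fun p hp L hL H hH z hz hno => ?_⟩
    have hL' : Pool.Agent.W245.PB.IsIwasawaLog p L := ⟨hL.1, hL.2.1, hL.2.2⟩
    by_contra hcon
    push Not at hcon
    obtain ⟨t, s, ht, hs, hrel⟩ := hmain p L hL' H hH z (fun j q => (hz j q).1)
      (fun j q => (hz j q).2) (fun e f => by
        refine le_trans (le_of_eq ?_) (hcon e f)
        congr 2
        ext j q
        simp [logMatrix])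
    exact hno ⟨t, s, ht, hs, hrel, by simp⟩
  · intro κ hκ
    obtain ⟨C, hC, hmain⟩ := Pool.Agent.L0h53.PQ.strong_p d l r h κ hκ
    refine ⟨C, hC, fun p hp L hL H hH β z hz hβ hno => ?_⟩
    have hL' : Pool.Agent.W245.PB.IsIwasawaLog p L := ⟨hL.1, hL.2.1, hL.2.2⟩
    by_contra hcon
    push Not at hcon
    exact hno (hmain p L hL' H hH z β (fun j q => (hz j q).1) (fun j q => (hz j q).2)
      (fun j q => (hβ j q).1) (fun j q => (hβ j q).2) hcon)

end Pool.Agent.Results.MP_dd0d16_nt.LowRankMatrices
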