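import Pool.Agent.L0h53.PQ.Near

/-!
# Products of two `p`-adic logarithms of rational numbers which are very close to a third one

Let `κ > 9`. There is a constant `C > 0`, depending on `κ` only, such that for every prime `p`, every
real `H ≥ 3` and every positive rational number `c ≠ 1`, prime to `p` and of height at most `H`, the
following holds. Consider the pairs `(a, b)` of positive rational numbers, prime to `p` and of height
at most `H`, with

  `|log_p a * log_p c - log_p b|_p ≤ exp (-C (p ^ 4 log H) ^ κ)`.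

* All these pairs are powers `(m ^ k, w ^ k)`, `k ∈ ℤ`, of one pair `(m, w)` of positive rational
  numbers.
* There are at most `2 log H / log 2 + 1` such pairs.

The numbers `p` and `c` may vary with `H`. Here the height of a rational number is the maximum of the
absolute values of its numerator and its denominator, and a rational number is prime to `p` if its
`p`-adic valuation is zero.

`log_p b - log_p a * log_p c` is the determinant of the matrix with the rows `(1, log_p c)` and
`(log_p a, log_p b)`; the `p`-adic strong four exponentials conjecture says that it is not zero for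
`a, c ≠ 1`.

Method: the obstruction subgroups of `G_a × G_m ^ 2` for the points `(1, 1, c)`, `(0, a, b)`,
`(0, a', b')`, which are `p`-adically close to the points of a two-dimensional analytic subgroup, with
an auxiliary polynomial obtained from the box principle modulo a power of `p` and a zero estimate; the
degenerate cases are excluded with a uniform measure for the `p`-adic Hermite-Lindemann theorem (with
exponent `9 / 4`), and with trivial lower bounds for `p`-adic logarithms of rational numbers.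
-/

set_option autoImplicit false

namespace Pool.Agent.Results.MP_dd0d16_nt.NearProducts

/-- `L` is the Iwasawa `p`-adic logarithm on the algebraic closure of `ℚ_p`. -/
def IsIwasawaLog (p : ℕ) [Fact p.Prime] (L : PadicAlgCl p → PadicAlgCl p) : Prop :=
  (∀ x y : PadicAlgCl p, x ≠ 0 → y ≠ 0 → L (x * y) = L x + L y) ∧
  L ((p : ℕ) : PadicAlgCl p) = 0 ∧
  ∀ z : PadicAlgCl p, ‖z‖ < 1 →
    HasSum (fun n : ℕ => (-1 : PadicAlgCl p) ^ n * z ^ (n + 1) / ((n : PadicAlgCl p) + 1))
      (L (1 + z))

/-- `x` is a positive rational number which is prime to `p` (its `p`-adic valuation is zero), and its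
numerator and its denominator are at most `H`. -/
def PosUnit (p : ℕ) (H : ℝ) (x : ℚ) : Prop :=
  0 < x ∧ padicValRat p x = 0 ∧ |(x.num : ℝ)| ≤ H ∧ (x.den : ℝ) ≤ H

/-- The pairs `(a, b)` of positive rational numbers, prime to `p` and of height at most `H`, such that
`|log_p a * log_p c - log_p b| ≤ ε`. -/
def NearPairs (p : ℕ) [Fact p.Prime] (L : PadicAlgCl p → PadicAlgCl p) (H ε : ℝ) (c : ℚ) :
    Set (ℚ × ℚ) :=
  {z | PosUnit p H z.1 ∧ PosUnit p H z.2 ∧
    ‖L ((z.1 : ℚ) : PadicAlgCl p) * L ((c : ℚ) : PadicAlgCl p) - L ((z.2 : ℚ) : PadicAlgCl p)‖ ≤ ε}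

/-- **Main result.** -/
theorem result (κ : ℝ) (hκ : 9 < κ) : ∃ C : ℝ, 0 < C ∧
    ∀ (p : ℕ) [Fact p.Prime] (L : PadicAlgCl p → PadicAlgCl p), IsIwasawaLog p L →
    ∀ H : ℝ, 3 ≤ H → ∀ c : ℚ, PosUnit p H c → c ≠ 1 →
    (∃ m w : ℚ, 0 < m ∧ 0 < w ∧
      ∀ z ∈ NearPairs p L H (Real.exp (-(C * ((p : ℝ) ^ 4 * Real.log H) ^ κ))) c,
        ∃ k : ℤ, z = (m ^ k, w ^ k)) ∧
    (NearPairs p L H (Real.exp (-(C * ((p : ℝ) ^ 4 * Real.log H) ^ κ))) c).Finite ∧
    ((NearPairs p L H (Real.exp (-(C * ((p : ℝ) ^ 4 * Real.log H) ^ κ))) c).ncard : ℝ) ≤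
      2 * (Real.log H / Real.log 2) + 1 := by
  obtain ⟨C, hC, h⟩ := Pool.Agent.L0h53.PQ.near_productsP κ hκ
  refine ⟨C, hC, fun p hp L hL H hH c hc hc1 => ?_⟩
  have hL' : Pool.Agent.W245.PB.IsIwasawaLog p L := ⟨hL.1, hL.2.1, hL.2.2⟩
  exact h p L hL' H hH c hc.1 hc.2.1 hc.2.2 hc1 _ fun z hz =>
    ⟨⟨hz.1.1, hz.1.2.1, hz.1.2.2⟩, ⟨hz.2.1.1, hz.2.1.2.1, hz.2.1.2.2⟩, hz.2.2⟩

end Pool.Agent.Results.MP_dd0d16_nt.NearProducts
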