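import Pool.Agent.L0h53.PS.Final

/-!
# `p`-adic logarithms of rational numbers: a uniform lower bound for minors, and a count

Let `l ≥ 3` and `κ > 2 l / (l - 2)`. There is a constant `C > 0`, depending only on `l` and `κ`, with
the following two properties, for every prime `p` and every `H ≥ 3`.

(1) Let `(log_p r_ij)` be a `2 × l` matrix of Iwasawa logarithms of nonzero rational numbers of height
at most `H`, with rows and columns linearly independent over `ℚ`. Then one of its `2 × 2` minors has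
absolute value larger than `exp (- C (p ^ 3 log H) ^ κ)`.

(2) Let `t` be any element of the algebraic closure of `ℚ_p`. Consider the pairs `(m, n)` of positive
integers prime to `p` and at most `H` with `|log_p n - t log_p m| ≤ exp (- C (p ^ 3 log H) ^ κ)`. If
one of these pairs consists of two multiplicatively independent numbers, then there are at most
`(1 + log H / log 2) ^ (l - 1)` such pairs.

The proof is elementary on the analytic side: an auxiliary polynomial is constructed with the box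
principle modulo a power of `p`, its values are integers which are divisible by a large power of `p`
and therefore vanish, and a zero estimate of Philippon type gives an obstruction subgroup.
-/

set_option autoImplicit false

namespace Pool.Agent.Results.MP_dd0d16_nt.UniformMinors

/-- `L` is the Iwasawa `p`-adic logarithm on the algebraic closure of `ℚ_p`. -/
def IsIwasawaLog (p : ℕ) [Fact p.Prime] (L : PadicAlgCl p → PadicAlgCl p) : Prop :=
  (∀ x y : PadicAlgCl p, x ≠ 0 → y ≠ 0 → L (x * y) = L x + L y) ∧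
  L ((p : ℕ) : PadicAlgCl p) = 0 ∧
  ∀ z : PadicAlgCl p, ‖z‖ < 1 →
    HasSum (fun n : ℕ => (-1 : PadicAlgCl p) ^ n * z ^ (n + 1) / ((n : PadicAlgCl p) + 1))
      (L (1 + z))

/-- The rational number `r` has height at most `H`: numerator and denominator (in lowest terms) have
absolute value at most `H`. -/
def HeightLe (H : ℝ) (r : ℚ) : Prop := |(r.num : ℝ)| ≤ H ∧ (r.den : ℝ) ≤ H

/-- The pairs `(m, n)` of positive integers which are at most `H` and prime to `p`, for which
`log_p n - t log_p m` has absolute value at most `ε`. -/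
def NearRatio (p : ℕ) [Fact p.Prime] (L : PadicAlgCl p → PadicAlgCl p) (H ε : ℝ)
    (t : PadicAlgCl p) : Set (ℕ × ℕ) :=
  {z | ((1 ≤ z.1 ∧ (z.1 : ℝ) ≤ H) ∧ (1 ≤ z.2 ∧ (z.2 : ℝ) ≤ H)) ∧ (¬ p ∣ z.1 ∧ ¬ p ∣ z.2) ∧
    ‖L ((z.2 : ℕ) : PadicAlgCl p) - t * L ((z.1 : ℕ) : PadicAlgCl p)‖ ≤ ε}

/-- `m` and `n` are multiplicatively independent. -/
def MultIndep (m n : ℕ) : Prop := ∀ u v : ℤ, (m : ℚ) ^ u * (n : ℚ) ^ v = 1 → u = 0 ∧ v = 0

/-- **Main result.** -/
theorem result (l : ℕ) (hl : 3 ≤ l) (κ : ℝ) (hκ : (2 * l : ℝ) / (l - 2) < κ) :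
    ∃ C : ℝ, 0 < C ∧ ∀ (p : ℕ) [Fact p.Prime] (L : PadicAlgCl p → PadicAlgCl p),
      IsIwasawaLog p L → ∀ H : ℝ, 3 ≤ H →
      (∀ r : Fin 2 → Fin l → ℚ, (∀ i j, r i j ≠ 0 ∧ HeightLe H (r i j)) →
        LinearIndependent ℚ (fun i : Fin 2 => fun j : Fin l => L ((r i j : ℚ) : PadicAlgCl p)) →
        LinearIndependent ℚ (fun j : Fin l => fun i : Fin 2 => L ((r i j : ℚ) : PadicAlgCl p)) →
        ∃ j k, Real.exp (-(C * ((p : ℝ) ^ 3 * Real.log H) ^ κ)) <
          ‖L ((r 0 j : ℚ) : PadicAlgCl p) * L ((r 1 k : ℚ) : PadicAlgCl p) -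
            L ((r 0 k : ℚ) : PadicAlgCl p) * L ((r 1 j : ℚ) : PadicAlgCl p)‖) ∧
      ∀ (t : PadicAlgCl p) (m₀ n₀ : ℕ), MultIndep m₀ n₀ →
        (m₀, n₀) ∈ NearRatio p L H (Real.exp (-(C * ((p : ℝ) ^ 3 * Real.log H) ^ κ))) t →
        ((NearRatio p L H (Real.exp (-(C * ((p : ℝ) ^ 3 * Real.log H) ^ κ))) t).ncard : ℝ) ≤
          (1 + Real.log H / Real.log 2) ^ (l - 1) := by
  obtain ⟨C, hC, h⟩ := Pool.Agent.L0h53.PS.six l hl κ hκ
  refine ⟨C, hC, ?_⟩
  intro p hp L hL H hH
  have hL' : Pool.Agent.W245.PB.IsIwasawaLog p L := ⟨hL.1, hL.2.1, hL.2.2⟩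
  refine ⟨?_, ?_⟩
  · intro r hr hrow hcol
    refine h p L hL' H hH (r 0) (r 1) (fun q => (hr 0 q).1) (fun q => (hr 1 q).1)
      (fun q => (hr 0 q).2) (fun q => (hr 1 q).2) ?_ ?_
    · intro t0 t1 ht
      have h1 := Fintype.linearIndependent_iff.mp hrow ![(t0 : ℚ), (t1 : ℚ)] (by
        funext q
        rw [Fin.sum_univ_two]
        have h2 := ht q
        simp only [Matrix.cons_val_zero, Matrix.cons_val_one, Pi.add_apply,
          Pi.zero_apply, Algebra.smul_def, map_intCast]
        exact h2)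
      have e0 := h1 0
      have e1 := h1 1
      simp only [Matrix.cons_val_zero, Matrix.cons_val_one] at e0 e1
      exact ⟨by exact_mod_cast e0, by exact_mod_cast e1⟩
    · intro s hs0 hs1
      have h1 := Fintype.linearIndependent_iff.mp hcol (fun q => (s q : ℚ)) (by
        funext i
        rw [Finset.sum_apply]
        simp only [Pi.smul_apply, Pi.zero_apply, Algebra.smul_def, map_intCast]
        fin_cases i
        · exact hs0
        · exact hs1)
      funext q
      have := h1 q
      exact_mod_cast this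
  · intro t m₀ n₀ hind hmem
    exact Pool.Agent.L0h53.PS.few l hl hL' hH (h p L hL' H hH) t _ (fun z hz => hz.1)
      (fun z hz => hz.2.1) (fun z hz => hz.2.2) (m₀, n₀) hmem hind

end Pool.Agent.Results.MP_dd0d16_nt.UniformMinors
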